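import Mathlib

/-! Second order neighbours in packings of unit balls: a certificate in three-space. -/

set_option autoImplicit false

namespace Pool.Agent.Lib.MP_b07bdb_co.Ball

open Metric

theorem cert {E : Type} [NormedAddCommGroup E] [NormedSpace ℝ E] (L : List E) (a : E) (n : ℕ)
    (ha : a ∈ L) (hn : L.length = n + 1) (hs : L.Pairwise fun p q => 2 ≤ dist p q)
    (hp : ∀ p ∈ L, p = a ∨ dist a p = 2 ∨ ∃ q ∈ L, dist a q = 2 ∧ dist q p = 2) :
    ∃ P : Set E, (P.Pairwise fun p q =>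
      Disjoint (interior (closedBall p 1)) (interior (closedBall q 1))) ∧
      ∃ A : P, (n : ℕ∞) ≤ {B : P | ∃ j : ℕ, 1 ≤ j ∧ j ≤ 2 ∧
        (SimpleGraph.fromRel fun p q : P => dist (p : E) (q : E) = 2).edist A B = j}.encard := by
  classical
  have hnd : L.Nodup := hs.imp fun {x y} h e => by
    rw [e, dist_self] at h
    linarith
  refine ⟨L.toFinset, fun x hx y hy hxy => ?_, ⟨a, by simpa using ha⟩, ?_⟩
  · have : Std.Symm fun z w : E => 2 ≤ dist z w := ⟨fun z w h => by rwa [dist_comm]⟩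
    beta_reduce
    rw [interior_closedBall _ one_ne_zero, interior_closedBall _ one_ne_zero]
    refine ball_disjoint_ball ?_
    rw [one_add_one_eq_two]
    exact hs.forall (by simpa using hx) (by simpa using hy) hxy
  · generalize hA : (⟨a, by simpa using ha⟩ : ↥(L.toFinset : Set E)) = A
    have eA : (A : E) = a := by rw [← hA]
    generalize hG : (SimpleGraph.fromRel fun p q : ↥(L.toFinset : Set E) =>
      dist (p : E) (q : E) = 2) = G
    have adj : ∀ p q : ↥(L.toFinset : Set E), dist (p : E) (q : E) = 2 → G.Adj p q :=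
      fun p q h => by
        rw [← hG, SimpleGraph.fromRel_adj]
        refine ⟨fun e => ?_, Or.inl h⟩
        rw [e, dist_self] at h
        norm_num at h
    have h1 : (Set.univ : Set ↥(L.toFinset : Set E)) ⊆
        insert A {B | ∃ j : ℕ, 1 ≤ j ∧ j ≤ 2 ∧ G.edist A B = j} := fun B _ => by
      by_cases e : B = A
      · exact Or.inl e
      have h2 : G.edist A B ≤ (2 : ℕ) := by
        rcases hp B (by simpa using B.2) with h | h | ⟨q, hq, h, h'⟩
        · exact absurd (Subtype.ext (h.trans eA.symm)) e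
        · exact (SimpleGraph.edist_le (adj A B (eA ▸ h)).toWalk).trans (by simp)
        · exact (SimpleGraph.edist_le (SimpleGraph.Walk.cons
            (adj A ⟨q, by simpa using hq⟩ (eA ▸ h)) (adj _ B h').toWalk)).trans (by simp)
      obtain ⟨j, hj⟩ := ENat.ne_top_iff_exists.1 (ne_top_of_le_ne_top (ENat.natCast_ne_top 2) h2)
      refine Or.inr ⟨j, Nat.one_le_iff_ne_zero.2 fun h0 => e ?_, ?_, hj.symm⟩
      · rw [h0, Nat.cast_zero, eq_comm, SimpleGraph.edist_eq_zero_iff] at hj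
        exact hj.symm
      · rw [← hj] at h2
        exact_mod_cast h2
    have h3 := (Set.encard_le_encard h1).trans (Set.encard_insert_le _ _)
    rw [Set.encard_univ, ENat.card_coe_set_eq, Set.encard_coe_eq_coe_finsetCard,
      List.toFinset_card_of_nodup hnd, hn, Nat.cast_succ] at h3
    exact (ENat.add_le_add_iff_right ENat.one_ne_top).1 h3

/-- A rational point of the sphere of radius two. -/
def sph (t : ℤ × ℤ × ℤ) : ℚ × ℚ × ℚ :=
  (4000 * t.1 / (t.1 ^ 2 + t.2.1 ^ 2 + 1000000), 4000 * t.2.1 / (t.1 ^ 2 + t.2.1 ^ 2 + 1000000),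
    2 * t.2.2 * (1000000 - t.1 ^ 2 - t.2.1 ^ 2) / (t.1 ^ 2 + t.2.1 ^ 2 + 1000000))

/-- The twelve neighbours. -/
def fst : List (ℤ × ℤ × ℤ) :=
  [(-708, -530, -1), (-46, -303, -1), (-693, 332, 1), (833, 549, -1), (199, 181, -1),
   (-365, 191, -1), (103, -944, 1), (592, -313, -1), (327, -178, 1), (-234, -218, 1),
   (-42, 822, -1), (-19, 373, 1)]

/-- The second order neighbours, each with the index of a ball that it touches. -/
def snd : List (ℕ × ℤ × ℤ × ℤ) :=
  [(0, -594, -600, 1), (0, -539, 149, 1), (0, -383, -135, -1), (0, 52, -617, -1),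
   (1, -373, -293, -1), (1, -41, 161, -1), (1, 221, -316, -1), (2, -912, 175, 1),
   (2, -266, 504, -1), (2, -252, -80, 1), (2, -212, 547, 1), (3, -167, 569, 1), (3, 57, 19, 1),
   (3, 244, 503, -1), (3, 511, 411, 1), (3, 687, -34, -1), (4, 9, 708, -1), (4, 57, 92, -1),
   (4, 328, -408, -1), (4, 660, 193, -1), (5, -780, -182, 1), (5, -506, 326, -1),
   (5, -276, -255, -1), (5, 77, 195, -1), (6, -239, -885, 1), (6, 83, -259, 1), (6, 88, -356, -1),
   (6, 678, -651, 1), (7, 184, -459, -1), (7, 593, -469, 1), (7, 598, 44, -1), (8, -126, 229, 1),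
   (8, 27, -288, 1), (8, 512, 42, 1), (8, 592, -725, 1), (8, 635, 121, -1), (9, -572, -224, 1),
   (9, -264, -840, -1), (9, -109, 155, 1), (9, 38, -369, 1), (10, -421, 713, 1),
   (10, -300, 255, -1), (10, 360, 743, -1), (11, -349, 127, 1), (11, -207, 809, 1),
   (11, 197, 255, 1)]

/-- All centres. -/
def pts : List (ℚ × ℚ × ℚ) :=
  (0, 0, 0) :: (fst.map sph ++ snd.map fun t => sph (fst.getD t.1 (0, 0, 0)) + sph t.2)

/-- The square of the distance. -/
def dq (p q : ℚ × ℚ × ℚ) : ℚ := (p.1 - q.1) ^ 2 + (p.2.1 - q.2.1) ^ 2 + (p.2.2 - q.2.2) ^ 2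

theorem chk_len : pts.length = 58 + 1 := by decide +kernel

theorem chk_sep : pts.Pairwise fun p q => 4 ≤ dq p q := by decide +kernel

theorem chk_par : ∀ p ∈ pts, p = (0, 0, 0) ∨ dq (0, 0, 0) p = 4 ∨
    ∃ q ∈ pts, dq (0, 0, 0) q = 4 ∧ dq q p = 4 := by decide +kernel

/-- The point of Euclidean space. -/
noncomputable def emb (p : ℚ × ℚ × ℚ) : EuclideanSpace ℝ (Fin 3) := !₂[(p.1 : ℝ), p.2.1, p.2.2]

theorem emb_dist (p q : ℚ × ℚ × ℚ) : dist (emb p) (emb q) = √(dq p q : ℚ) := by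
  rw [EuclideanSpace.dist_eq, Fin.sum_univ_three]
  simp [emb, dq, Real.dist_eq]

theorem sqrt_four : √(4 : ℝ) = 2 := by
  rw [show (4 : ℝ) = 2 ^ 2 by norm_num, Real.sqrt_sq zero_le_two]

theorem emb_eq {p q : ℚ × ℚ × ℚ} (h : dq p q = 4) : dist (emb p) (emb q) = 2 := by
  rw [emb_dist, h, ← sqrt_four]
  norm_num

theorem emb_ge {p q : ℚ × ℚ × ℚ} (h : 4 ≤ dq p q) : 2 ≤ dist (emb p) (emb q) := by
  rw [emb_dist, ← sqrt_four]
  exact Real.sqrt_le_sqrt (by exact_mod_cast h)

end Pool.Agent.Lib.MP_b07bdb_co.Ball
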