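import Pool.Agent.Lib.MP_b07bdb_co.Ring

/-! Checking a finite configuration given by Eisenstein integer coordinates. -/

namespace Pool.Agent.Lib.MP_b07bdb_co

/-- A point `x + y ω` with a depth label `l` and a supporting direction `c + d ω`. -/
structure Pt where
  x : ℤ
  y : ℤ
  l : ℕ
  c : ℤ
  d : ℤ

def dq (p q : Pt) : ℤ :=
  (p.x - q.x) * (p.x - q.x) + (p.x - q.x) * (p.y - q.y) + (p.y - q.y) * (p.y - q.y)

def iz (q p : Pt) : ℤ := 2 * q.x * p.c + q.x * p.d + q.y * p.c + 2 * q.y * p.d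

def sepOK (E : ℤ) : List Pt → Bool
  | [] => true
  | p :: L => (L.all fun q => decide (E ≤ dq p q)) && sepOK E L

def parOK (E : ℤ) (L : List Pt) : Bool :=
  L.all fun p => (decide (p.x = 0) && decide (p.y = 0)) ||
    L.any fun q => decide (q.l < p.l) && decide (dq p q = E)

def hasDir (p : Pt) : Bool := !(decide (p.c = 0) && decide (p.d = 0))

def extOK (L : List Pt) : Bool :=
  (L.filter hasDir).all fun p => L.all fun q => decide (iz q p ≤ iz p p)

noncomputable def emb (D : ℤ) (p : Pt) : ℂ := ⟨(2 * p.x + p.y) / D, √3 * p.y / D⟩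

lemma emb_sq {D : ℤ} (hD : 0 < D) (p q : Pt) :
    dist (emb D p) (emb D q) ^ 2 = 4 * (dq p q : ℝ) / (D * D) := by
  have hD' : (D : ℝ) ≠ 0 := by exact_mod_cast hD.ne'
  rw [dist_eq_norm, Complex.sq_norm, Complex.normSq_apply]
  simp only [emb, dq, Complex.sub_re, Complex.sub_im]
  push_cast
  field_simp
  linear_combination ((p.y : ℝ) - q.y) ^ 2 * sq3

lemma emb_ge {D : ℤ} (hD : 0 < D) {p q : Pt} (h : D * D ≤ dq p q) :
    2 ≤ dist (emb D p) (emb D q) := by
  have hD' : (0 : ℝ) < D := by exact_mod_cast hD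
  have h' : (D : ℝ) * D ≤ dq p q := by exact_mod_cast h
  have h1 := emb_sq hD p q
  have h2 : 4 ≤ 4 * (dq p q : ℝ) / (D * D) := by
    rw [le_div_iff₀ (by positivity)]; linarith
  by_contra hc
  push Not at hc
  nlinarith [dist_nonneg (x := emb D p) (y := emb D q)]

lemma emb_eq {D : ℤ} (hD : 0 < D) {p q : Pt} (h : dq p q = D * D) :
    dist (emb D p) (emb D q) = 2 := by
  have hD' : (0 : ℝ) < D := by exact_mod_cast hD
  have h1 := emb_sq hD p q
  rw [h] at h1
  push_cast at h1
  rw [mul_div_assoc, div_self (by positivity)] at h1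
  have h2 := dist_nonneg (x := emb D p) (y := emb D q)
  nlinarith

lemma sepOK_pairwise {D : ℤ} (hD : 0 < D) : ∀ L : List Pt, sepOK (D * D) L = true →
    (L.map (emb D)).Pairwise (fun z w => 2 ≤ dist z w)
  | [], _ => List.Pairwise.nil
  | p :: L, h => by
    simp only [sepOK, Bool.and_eq_true, List.all_eq_true, decide_eq_true_eq] at h
    rw [List.map_cons, List.pairwise_cons]
    refine ⟨fun z hz => ?_, sepOK_pairwise hD L h.2⟩
    obtain ⟨q, hq, rfl⟩ := List.mem_map.1 hz
    exact emb_ge hD (h.1 q hq)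

open Classical in
lemma cert {D : ℤ} (hD : 0 < D) (L : List Pt) (k : ℕ) (h0 : ∃ p ∈ L, p.x = 0 ∧ p.y = 0)
    (hk : ∀ p ∈ L, p.l ≤ k) (hp : (L.map (emb D)).Pairwise (fun z w => 2 ≤ dist z w))
    (h2 : ∀ p ∈ L, (p.x = 0 ∧ p.y = 0) ∨ ∃ q ∈ L, q.l < p.l ∧ dq p q = D * D) :
    Good (L.map (emb D)).toFinset k ∧ (L.map (emb D)).toFinset.card = L.length ∧
      (extOK L = true → (L.filter hasDir).length ≤ (Ext (L.map (emb D)).toFinset).card) := by
  have hnd : (L.map (emb D)).Nodup := hp.imp (fun {a b} h e => by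
    rw [e, dist_self] at h; linarith)
  have hzero : ∀ p : Pt, p.x = 0 → p.y = 0 → emb D p = 0 := by
    intro p a b
    apply Complex.ext <;> simp [emb, a, b]
  have hmem : ∀ p ∈ L, emb D p ∈ (L.map (emb D)).toFinset := fun p hp =>
    List.mem_toFinset.2 (List.mem_map_of_mem hp)
  refine ⟨⟨?_, ?_, ?_⟩, by rw [List.toFinset_card_of_nodup hnd, List.length_map], fun h3 => ?_⟩
  · obtain ⟨p, hp, a, b⟩ := h0
    exact hzero p a b ▸ hmem p hp
  · intro x hx y hy hxy
    have : Std.Symm (fun z w : ℂ => 2 ≤ dist z w) := ⟨fun a b h => by rwa [dist_comm]⟩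
    exact hp.forall (List.mem_toFinset.1 hx) (List.mem_toFinset.1 hy) hxy
  · have hz : ∀ j, Reach (L.map (emb D)).toFinset j 0 := by
      intro j
      induction j with
      | zero => rfl
      | succ j ih => exact Or.inl ih
    have key : ∀ j, ∀ p ∈ L, p.l ≤ j → Reach (L.map (emb D)).toFinset j (emb D p) := by
      intro j
      induction j with
      | zero =>
        intro p hp hl
        rcases h2 p hp with ⟨a, b⟩ | ⟨q, -, a, -⟩
        · rw [hzero p a b]; exact hz 0
        · omega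
      | succ j ih =>
        intro p hp hl
        rcases h2 p hp with ⟨a, b⟩ | ⟨q, hq, a, b⟩
        · rw [hzero p a b]; exact hz _
        · exact Or.inr ⟨_, hmem q hq, ih q hq (by omega), emb_eq hD b⟩
    intro x hx
    obtain ⟨p, hp, rfl⟩ := List.mem_map.1 (List.mem_toFinset.1 hx)
    exact key k p hp (hk p hp)
  · have hnd' : ((L.filter hasDir).map (emb D)).Nodup :=
      hnd.sublist (List.filter_sublist.map _)
    rw [← List.length_map (emb D), ← List.toFinset_card_of_nodup hnd']
    apply Finset.card_le_card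
    intro x hx
    obtain ⟨p, hp, rfl⟩ := List.mem_map.1 (List.mem_toFinset.1 hx)
    simp only [extOK, List.all_eq_true, decide_eq_true_eq] at h3
    have h4 := h3 p hp
    obtain ⟨hpL, hdir⟩ := List.mem_filter.1 hp
    simp only [Ext, Finset.mem_filter]
    refine ⟨hmem p hpL, ⟨2 * p.c + p.d, √3 * p.d⟩, fun e => ?_, fun z hz => ?_⟩
    · have e1 := congrArg Complex.re e
      have e2 := congrArg Complex.im e
      simp only [Complex.zero_re, Complex.zero_im, mul_eq_zero, sq3_pos.ne', false_or,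
        Int.cast_eq_zero] at e1 e2
      rw [e2] at e1
      have e3 : p.c = 0 := by
        have : (p.c : ℝ) = 0 := by simpa using e1
        exact_mod_cast this
      simp [hasDir, e2, e3] at hdir
    · obtain ⟨q, hq, rfl⟩ := List.mem_map.1 (List.mem_toFinset.1 hz)
      have hD' : (0 : ℝ) < D := by exact_mod_cast hD
      have e : ∀ q : Pt, ip (emb D q) ⟨2 * p.c + p.d, √3 * p.d⟩ = 2 * (iz q p : ℝ) / D := by
        intro q
        simp only [ip, emb, iz]
        push_cast
        field_simp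
        linear_combination (q.y : ℝ) * p.d * sq3
      rw [e, e]
      have h5 : (iz q p : ℝ) ≤ iz p p := by exact_mod_cast h4 q hq
      gcongr

open Classical in
lemma cert_filter {D : ℤ} (hD : 0 < D) (L : List Pt) (k : ℕ) (h0 : ∃ p ∈ L, p.x = 0 ∧ p.y = 0 ∧ p.l = 0)
    (h1 : sepOK (D * D) L = true) (h2 : parOK (D * D) L = true) :
    ∃ S : Finset ℂ, Good S k ∧ S.card = (L.filter fun p => decide (p.l ≤ k)).length ∧
      (extOK (L.filter fun p => decide (p.l ≤ k)) = true →
        ((L.filter fun p => decide (p.l ≤ k)).filter hasDir).length ≤ (Ext S).card) := by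
  refine ⟨_, cert hD _ k ?_ (fun p hp => by simpa using (List.mem_filter.1 hp).2)
    ((sepOK_pairwise hD L h1).sublist (List.filter_sublist.map _)) ?_⟩
  · obtain ⟨p, hp, a, b, c⟩ := h0
    exact ⟨p, List.mem_filter.2 ⟨hp, by simp [c]⟩, a, b⟩
  · simp only [parOK, List.all_eq_true, Bool.or_eq_true, Bool.and_eq_true, decide_eq_true_eq,
      List.any_eq_true] at h2
    intro p hp
    obtain ⟨hpL, hl⟩ := List.mem_filter.1 hp
    simp only [decide_eq_true_eq] at hl
    rcases h2 p hpL with h | ⟨q, hq, a, b⟩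
    · exact Or.inl h
    · exact Or.inr ⟨q, List.mem_filter.2 ⟨hq, by simp only [decide_eq_true_eq]; omega⟩, a, b⟩

end Pool.Agent.Lib.MP_b07bdb_co
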