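import Mathlib

/-! Definitions for MP_b07bdb_co: packings of unit disks and higher-order neighbours. -/

namespace Pool.Agent.Lib.MP_b07bdb_co

open Metric

/-- The Euclidean plane. -/
abbrev Plane := EuclideanSpace ℝ (Fin 2)

/-- `P` is the set of centres of a packing with closed unit disks: the disks have pairwise
disjoint interiors. -/
def IsPacking (P : Set Plane) : Prop :=
  P.Pairwise fun p q => Disjoint (interior (closedBall p 1)) (interior (closedBall q 1))

/-- The contact graph of the disks centred at the points of `P`: two disks are neighbours if
their centres are at distance exactly `2`. -/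
def contactGraph (P : Set Plane) : SimpleGraph P :=
  SimpleGraph.fromRel fun p q => dist (p : Plane) (q : Plane) = 2

/-- The members that are `j`-th order neighbours of `A` for some `1 ≤ j ≤ k`. -/
def neighborsUpTo (P : Set Plane) (A : P) (k : ℕ) : Set P :=
  {B | ∃ j : ℕ, 1 ≤ j ∧ j ≤ k ∧ (contactGraph P).edist A B = j}

end Pool.Agent.Lib.MP_b07bdb_co
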