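import Pool.Agent.Lib.MP_b07bdb_co.Defs
import Pool.Agent.Lib.MP_b07bdb_co.Core

/-! Transfer to the Euclidean plane and its contact graph. -/

namespace Pool.Agent.Lib.MP_b07bdb_co

open Metric

theorem good_transfer {S : Finset ℂ} {k n : ℕ} (h : Good S k) (hn : n + 1 ≤ S.card) :
    ∃ P : Set Plane, IsPacking P ∧ ∃ A : P, (n : ℕ∞) ≤ (neighborsUpTo P A k).encard := by
  classical
  set φ := Complex.orthonormalBasisOneI.repr with hφ
  refine ⟨φ '' S, ?_, ⟨φ 0, 0, h.1, rfl⟩, ?_⟩
  · rintro _ ⟨x, hx, rfl⟩ _ ⟨y, hy, rfl⟩ hne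
    rw [interior_closedBall _ one_ne_zero, interior_closedBall _ one_ne_zero]
    apply ball_disjoint_ball
    rw [φ.dist_map]
    have := h.2.1 x hx y hy (fun e => hne (by rw [e]))
    linarith
  · set A : (φ '' S : Set Plane) := ⟨φ 0, 0, h.1, rfl⟩ with hA
    have key : ∀ j, ∀ x (hx : x ∈ S), Reach S j x →
        (contactGraph (φ '' S)).edist A ⟨φ x, x, hx, rfl⟩ ≤ j := by
      intro j
      induction j with
      | zero =>
        intro x hx hr
        have : x = 0 := hr
        subst this
        simp [hA]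
      | succ j ih =>
        intro x hx hr
        rcases hr with hr | ⟨y, hy, h1, h2⟩
        · exact le_trans (ih x hx hr) (by exact_mod_cast Nat.le_succ j)
        · have hadj : (contactGraph (φ '' S)).Adj ⟨φ y, y, hy, rfl⟩ ⟨φ x, x, hx, rfl⟩ := by
            rw [contactGraph, SimpleGraph.fromRel_adj]
            refine ⟨fun e => ?_, Or.inr (by simp only; rw [φ.dist_map, h2])⟩
            have : y = x := φ.injective (congrArg Subtype.val e)
            rw [this, dist_self] at h2
            linarith
          refine le_trans (SimpleGraph.edist_triangle (v := ⟨φ y, y, hy, rfl⟩)) ?_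
          rw [SimpleGraph.edist_eq_one_iff_adj.2 hadj]
          push_cast
          exact add_le_add (ih y hy h1) le_rfl
    have hsub : φ '' (S.erase 0 : Finset ℂ) ⊆ Subtype.val '' neighborsUpTo (φ '' S) A k := by
      rintro _ ⟨x, hx, rfl⟩
      obtain ⟨hx0, hxS⟩ := Finset.mem_erase.1 hx
      refine ⟨⟨φ x, x, hxS, rfl⟩, ?_, rfl⟩
      have h1 := key k x hxS (h.2.2 x hxS)
      obtain ⟨j, hj⟩ := ENat.ne_top_iff_exists.1 (ne_top_of_le_ne_top (ENat.natCast_ne_top k) h1)
      refine ⟨j, ?_, ?_, hj.symm⟩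
      · by_contra hc
        have : j = 0 := by omega
        rw [this] at hj
        have := SimpleGraph.edist_eq_zero_iff.1 hj.symm
        exact hx0 (φ.injective (congrArg Subtype.val this)).symm
      · rw [← hj] at h1
        exact_mod_cast h1
    have h1 := Set.encard_le_encard hsub
    rw [φ.injective.encard_image, Subtype.val_injective.encard_image, Set.encard_coe_eq_coe_finsetCard,
      Finset.card_erase_of_mem h.1] at h1
    exact le_trans (by exact_mod_cast (by omega : n ≤ S.card - 1)) h1

theorem beats_hexagonal (k : ℕ) (hk : 7 ≤ k) : ∃ P : Set Plane, IsPacking P ∧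
    ∃ A : P, ((3 * k * (k + 1) + 1 : ℕ) : ℕ∞) ≤ (neighborsUpTo P A k).encard := by
  obtain ⟨S, h1, h2⟩ := exists_good k hk
  exact good_transfer h1 h2

end Pool.Agent.Lib.MP_b07bdb_co
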