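import Mathlib

/-! Adding one ring of disks around a finite packing. -/

namespace Pool.Agent.Lib.MP_b07bdb_co

open Filter Topology

/-- Euclidean scalar product on `ℂ`. -/
def ip (z w : ℂ) : ℝ := z.re * w.re + z.im * w.im

/-- Reachability from `0` in at most `k` contact steps inside `S`. -/
def Reach (S : Finset ℂ) : ℕ → ℂ → Prop
  | 0, x => x = 0
  | k + 1, x => Reach S k x ∨ ∃ y ∈ S, Reach S k y ∧ dist x y = 2

/-- A finite packing all of whose members are within `k` contact steps of the origin. -/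
def Good (S : Finset ℂ) (k : ℕ) : Prop :=
  0 ∈ S ∧ (∀ x ∈ S, ∀ y ∈ S, x ≠ y → 2 ≤ dist x y) ∧ ∀ x ∈ S, Reach S k x

open Classical in
/-- The points of `S` on the boundary of its convex hull. -/
noncomputable def Ext (S : Finset ℂ) : Finset ℂ :=
  S.filter fun v => ∃ u : ℂ, u ≠ 0 ∧ ∀ x ∈ S, ip x u ≤ ip v u

lemma Reach.mono {S T : Finset ℂ} (h : S ⊆ T) : ∀ k x, Reach S k x → Reach T k x
  | 0, _, hx => hx
  | k + 1, x, hx => by
    rcases hx with hx | ⟨y, hy, h1, h2⟩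
    · exact Or.inl (Reach.mono h k x hx)
    · exact Or.inr ⟨y, h hy, Reach.mono h k y h1, h2⟩

lemma Reach.mul {S : Finset ℂ} {c : ℂ} (hc : ‖c‖ = 1) :
    ∀ k x, Reach S k x → Reach (S.image (c * ·)) k (c * x)
  | 0, x, hx => by
    have : x = 0 := hx
    show c * x = 0
    rw [this, mul_zero]
  | k + 1, x, hx => by
    rcases hx with hx | ⟨y, hy, h1, h2⟩
    · exact Or.inl (Reach.mul hc k x hx)
    · refine Or.inr ⟨c * y, Finset.mem_image_of_mem _ hy, Reach.mul hc k y h1, ?_⟩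
      rw [dist_eq_norm, ← mul_sub, norm_mul, hc, one_mul, ← dist_eq_norm, h2]

lemma normSq_of_norm {c : ℂ} (hc : ‖c‖ = 1) : c.re * c.re + c.im * c.im = 1 := by
  rw [← Complex.normSq_apply, ← Complex.sq_norm, hc]; norm_num

lemma ip_mul {c : ℂ} (hc : ‖c‖ = 1) (z w : ℂ) : ip (c * z) (c * w) = ip z w := by
  have := normSq_of_norm hc
  simp only [ip, Complex.mul_re, Complex.mul_im]
  linear_combination (z.re * w.re + z.im * w.im) * this

lemma ip_add (x y u : ℂ) : ip (x + y) u = ip x u + ip y u := by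
  simp only [ip, Complex.add_re, Complex.add_im]; ring

lemma ip_sub (x y u : ℂ) : ip (x - y) u = ip x u - ip y u := by
  simp only [ip, Complex.sub_re, Complex.sub_im]; ring

lemma two_le_norm {z : ℂ} : 2 ≤ ‖z‖ ↔ 4 ≤ z.re ^ 2 + z.im ^ 2 := by
  have h : ‖z‖ ^ 2 = z.re ^ 2 + z.im ^ 2 := by
    rw [Complex.sq_norm, Complex.normSq_apply]; ring
  rw [← h]
  constructor
  · intro h1; nlinarith
  · intro h1
    by_contra h2
    push Not at h2
    nlinarith [norm_nonneg z]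

lemma good_mul {S : Finset ℂ} {k : ℕ} (h : Good S k) {c : ℂ} (hc : ‖c‖ = 1) :
    Good (S.image (c * ·)) k ∧ (S.image (c * ·)).card = S.card ∧
      (Ext S).card ≤ (Ext (S.image (c * ·))).card := by
  have hc0 : c ≠ 0 := by rw [← norm_ne_zero_iff, hc]; exact one_ne_zero
  have hinj : Function.Injective (c * ·) := mul_right_injective₀ hc0
  refine ⟨⟨Finset.mem_image.2 ⟨0, h.1, mul_zero c⟩, ?_, ?_⟩, Finset.card_image_of_injective _ hinj,
    ?_⟩
  · intro x hx y hy hxy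
    obtain ⟨x, hx', rfl⟩ := Finset.mem_image.1 hx
    obtain ⟨y, hy', rfl⟩ := Finset.mem_image.1 hy
    rw [dist_eq_norm, ← mul_sub, norm_mul, hc, one_mul, ← dist_eq_norm]
    exact h.2.1 x hx' y hy' (fun e => hxy (by rw [e]))
  · intro x hx
    obtain ⟨x, hx', rfl⟩ := Finset.mem_image.1 hx
    exact Reach.mul hc k x (h.2.2 x hx')
  · rw [← Finset.card_image_of_injective (Ext S) hinj]
    apply Finset.card_le_card
    intro x hx
    obtain ⟨v, hv, rfl⟩ := Finset.mem_image.1 hx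
    simp only [Ext, Finset.mem_filter] at hv ⊢
    obtain ⟨hv, u, hu, hm⟩ := hv
    refine ⟨Finset.mem_image_of_mem _ hv, c * u, mul_ne_zero hc0 hu, fun x hx => ?_⟩
    obtain ⟨x, hx', rfl⟩ := Finset.mem_image.1 hx
    rw [ip_mul hc, ip_mul hc]
    exact hm x hx'

lemma exists_generic (F : Finset ℂ) (hF : ∀ c ∈ F, c ≠ 0) :
    ∃ z : ℂ, ‖z‖ = 1 ∧ ∀ c ∈ F, (z * c).re ≠ 0 := by
  classical
  obtain ⟨t, ht⟩ := Infinite.exists_notMem_finset (F.image fun c : ℂ => c.re / c.im)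
  have h0 : (⟨1, t⟩ : ℂ) ≠ 0 := fun h => by simpa using congrArg Complex.re h
  have hn : 0 < ‖(⟨1, t⟩ : ℂ)‖ := norm_pos_iff.2 h0
  refine ⟨((‖(⟨1, t⟩ : ℂ)‖⁻¹ : ℝ) : ℂ) * ⟨1, t⟩, ?_, fun c hc => ?_⟩
  · rw [norm_mul, Complex.norm_real, norm_inv, norm_norm, inv_mul_cancel₀ hn.ne']
  · rw [mul_assoc, Complex.re_ofReal_mul]
    refine mul_ne_zero (inv_pos.2 hn).ne' (fun h => ?_)
    simp only [Complex.mul_re, one_mul] at h
    by_cases hi : c.im = 0
    · rw [hi, mul_zero, sub_zero] at h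
      exact hF c hc (Complex.ext h hi)
    · exact ht (Finset.mem_image.2 ⟨c, hc, by field_simp; linarith⟩)

/-- The sixth roots of unity. -/
noncomputable def om : Fin 6 → ℂ :=
  ![⟨1, 0⟩, ⟨1 / 2, √3 / 2⟩, ⟨-1 / 2, √3 / 2⟩, ⟨-1, 0⟩, ⟨-1 / 2, -√3 / 2⟩, ⟨1 / 2, -√3 / 2⟩]

lemma sq3 : √3 * √3 = 3 := Real.mul_self_sqrt (by norm_num)

lemma sq3_pos : (0 : ℝ) < √3 := Real.sqrt_pos.2 (by norm_num)

lemma om_add (s t : Fin 6) : om (s + t) = om s * om t := by
  have h := sq3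
  fin_cases s <;> fin_cases t <;> apply Complex.ext <;>
    simp [om, Complex.mul_re, Complex.mul_im] <;> linarith

lemma om_norm (s : Fin 6) : ‖om s‖ = 1 := by
  have h := sq3
  have : ‖om s‖ ^ 2 = 1 := by
    rw [Complex.sq_norm, Complex.normSq_apply]
    fin_cases s <;> simp [om] <;> linarith
  nlinarith [norm_nonneg (om s)]

/-- The open cone of directions within `30` degrees of the positive real axis. -/
def Cone (w : ℂ) : Prop := √3 * w.im < w.re ∧ -(√3 * w.im) < w.re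

/-- The direction at `30` degrees. -/
noncomputable def nu : ℂ := ⟨√3, 1⟩

lemma cover (u : ℂ) (hu : u ≠ 0) :
    ∃ s : Fin 6, (∃ w, Cone w ∧ u = om s * w) ∨ ∃ t : ℝ, 0 < t ∧ u = t * (om s * nu) := by
  have h3 := sq3
  have hp := sq3_pos
  have key : ∀ s : Fin 6, u = om s * (om (-s) * u) := by
    intro s
    rw [← mul_assoc, ← om_add, add_neg_cancel]
    apply Complex.ext <;> simp [om]
  have hw : ∀ s : Fin 6, -(√3 * (om (-s) * u).im) < (om (-s) * u).re →
      √3 * (om (-s) * u).im ≤ (om (-s) * u).re →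
      (∃ w, Cone w ∧ u = om s * w) ∨ ∃ t : ℝ, 0 < t ∧ u = t * (om s * nu) := by
    intro s h1 h2
    rcases lt_or_eq_of_le h2 with h | h
    · exact Or.inl ⟨_, ⟨h, h1⟩, key s⟩
    · refine Or.inr ⟨(om (-s) * u).im, by nlinarith, ?_⟩
      have e : om (-s) * u = ((om (-s) * u).im : ℂ) * nu := by
        apply Complex.ext
        · rw [Complex.re_ofReal_mul, ← h]; simp [nu]; ring
        · rw [Complex.im_ofReal_mul]; simp [nu]
      rw [mul_left_comm, ← e]
      exact key s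
  have hne : u.re ≠ 0 ∨ u.im ≠ 0 := by
    by_contra h
    push Not at h
    exact hu (Complex.ext h.1 h.2)
  have e0 : om (-0) = ⟨1, 0⟩ := rfl
  have e1 : om (-1) = ⟨1 / 2, -√3 / 2⟩ := rfl
  have e2 : om (-2) = ⟨-1 / 2, -√3 / 2⟩ := rfl
  have e3 : om (-3) = ⟨-1, 0⟩ := rfl
  have e4 : om (-4) = ⟨-1 / 2, √3 / 2⟩ := rfl
  have e5 : om (-5) = ⟨1 / 2, √3 / 2⟩ := rfl
  obtain ⟨x, y⟩ := u
  simp only at hne
  have m1 : √3 * (√3 * x) = 3 * x := by rw [← mul_assoc, h3]
  rcases lt_trichotomy x 0 with hx | hx | hx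
  · rcases lt_or_ge (√3 * y) x with c | c
    · refine ⟨4, hw 4 ?_ ?_⟩ <;> rw [e4] <;> simp only [Complex.mul_re, Complex.mul_im] <;>
        nlinarith
    rcases lt_or_ge (√3 * y) (-x) with c' | c'
    · refine ⟨3, hw 3 ?_ ?_⟩ <;> rw [e3] <;> simp only [Complex.mul_re, Complex.mul_im] <;>
        nlinarith
    · refine ⟨2, hw 2 ?_ ?_⟩ <;> rw [e2] <;> simp only [Complex.mul_re, Complex.mul_im] <;>
        nlinarith
  · subst hx
    rcases lt_trichotomy y 0 with hy | hy | hy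
    · refine ⟨4, hw 4 ?_ ?_⟩ <;> rw [e4] <;> simp only [Complex.mul_re, Complex.mul_im] <;>
        nlinarith
    · simp [hy] at hne
    · refine ⟨1, hw 1 ?_ ?_⟩ <;> rw [e1] <;> simp only [Complex.mul_re, Complex.mul_im] <;>
        nlinarith
  · rcases lt_or_ge x (√3 * y) with c | c
    · refine ⟨1, hw 1 ?_ ?_⟩ <;> rw [e1] <;> simp only [Complex.mul_re, Complex.mul_im] <;>
        nlinarith
    rcases lt_or_ge (-x) (√3 * y) with c' | c'
    · refine ⟨0, hw 0 ?_ ?_⟩ <;> rw [e0] <;> simp only [Complex.mul_re, Complex.mul_im] <;>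
        nlinarith
    · refine ⟨5, hw 5 ?_ ?_⟩ <;> rw [e5] <;> simp only [Complex.mul_re, Complex.mul_im] <;>
        nlinarith

lemma cone_neg {a w : ℂ} (hw : Cone w) (h : 0 ≤ ip a w) (hp : a.re < 0) :
    3 * a.re ^ 2 ≤ a.im ^ 2 := by
  obtain ⟨h1, h2⟩ := hw
  have h3 := sq3
  have hs := sq3_pos
  simp only [ip] at h
  have hα : 0 < w.re := by linarith
  have h4 : √3 * (a.im * w.im) ≤ |a.im| * w.re := by
    have : |√3 * w.im| ≤ w.re := abs_le.2 ⟨by linarith, h1.le⟩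
    calc √3 * (a.im * w.im) = a.im * (√3 * w.im) := by ring
      _ ≤ |a.im * (√3 * w.im)| := le_abs_self _
      _ = |a.im| * |√3 * w.im| := abs_mul _ _
      _ ≤ _ := mul_le_mul_of_nonneg_left this (abs_nonneg _)
  have h5 : √3 * (-a.re) * w.re ≤ |a.im| * w.re := by nlinarith
  have h6 : √3 * (-a.re) ≤ |a.im| := le_of_mul_le_mul_right h5 hα
  have h7 : 0 ≤ √3 * (-a.re) := by nlinarith
  have h8 := mul_self_le_mul_self h7 h6
  rw [abs_mul_abs_self] at h8
  nlinarith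

lemma claim1 {a w : ℂ} (hw : Cone w) (h : 0 ≤ ip a w) (ha : a = 0 ∨ 2 ≤ ‖a‖) : 2 ≤ ‖a + 2‖ := by
  rcases ha with rfl | ha
  · simp
  rw [two_le_norm] at ha ⊢
  simp only [Complex.add_re, Complex.add_im, Complex.re_ofNat, Complex.im_ofNat, add_zero]
  rcases lt_or_ge a.re 0 with c | c
  · have := cone_neg hw h c
    by_contra hc
    push Not at hc
    nlinarith
  · nlinarith

lemma det_step {a b u v : ℂ} (h1 : 0 ≤ ip a u) (h2 : ip a v ≤ 0)
    (d1 : 0 < u.re * v.im - u.im * v.re) (d2 : 0 ≤ b.re * v.im - b.im * v.re)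
    (d3 : u.re * b.im - u.im * b.re ≤ 0) : 0 ≤ ip a b := by
  have e : (u.re * v.im - u.im * v.re) * ip a b =
      (b.re * v.im - b.im * v.re) * ip a u + (u.re * b.im - u.im * b.re) * ip a v := by
    simp only [ip]; ring
  have : 0 ≤ (u.re * v.im - u.im * v.re) * ip a b := by
    rw [e]
    exact add_nonneg (mul_nonneg d2 h1) (mul_nonneg_of_nonpos_of_nonpos d3 h2)
  exact nonneg_of_mul_nonneg_right this d1 |> fun h => by
    by_contra hc
    push Not at hc
    nlinarith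

lemma claim2 {a w w' : ℂ} (hw : Cone w) (hw' : Cone w') (j : Fin 6) (hj : j = 1 ∨ j = 2 ∨ j = 3)
    (h1 : 0 ≤ ip a w) (h2 : ip a (om j * w') ≤ 0) : 2 ≤ ‖a + (2 - 2 * om j)‖ := by
  have h3 := sq3
  have hs := sq3_pos
  have e1 : om 1 = ⟨1 / 2, √3 / 2⟩ := rfl
  have e2 : om 2 = ⟨-1 / 2, √3 / 2⟩ := rfl
  have e3 : om 3 = ⟨-1, 0⟩ := rfl
  have hw1 := hw.1
  have hw2 := hw.2
  have hw1' := hw'.1
  have hw2' := hw'.2
  have m1 : √3 * (√3 * w.re) = 3 * w.re := by rw [← mul_assoc, h3]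
  have m2 : √3 * (√3 * w'.re) = 3 * w'.re := by rw [← mul_assoc, h3]
  have m3 : √3 * (√3 * w.im) = 3 * w.im := by rw [← mul_assoc, h3]
  have m4 : √3 * (√3 * w'.im) = 3 * w'.im := by rw [← mul_assoc, h3]
  rw [two_le_norm]
  rcases hj with rfl | rfl | rfl
  · have hb : (2 - 2 * om 1 : ℂ) = ⟨1, -√3⟩ := by
      rw [e1]; apply Complex.ext <;> simp <;> ring
    have := det_step (b := ⟨1, -√3⟩) h1 h2 (by
      rw [e1]; simp only [Complex.mul_re, Complex.mul_im]
      have p1 := mul_pos (sub_pos.2 hw1) (sub_pos.2 hw1')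
      have p2 := mul_pos (sub_pos.2 hw1) (sub_pos.2 hw2')
      have p3 := mul_pos (sub_pos.2 hw2) (sub_pos.2 hw2')
      apply pos_of_mul_pos_left (b := √3) _ hs.le
      nlinarith) (by
      rw [e1]; simp only [Complex.mul_re, Complex.mul_im]; nlinarith) (by
      simp only; nlinarith)
    rw [hb]
    simp only [ip, Complex.add_re, Complex.add_im] at this ⊢
    nlinarith [sq_nonneg a.re, sq_nonneg a.im]
  · have hb : (2 - 2 * om 2 : ℂ) = ⟨3, -√3⟩ := by
      rw [e2]; apply Complex.ext <;> simp <;> ring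
    have := det_step (b := ⟨3, -√3⟩) h1 h2 (by
      rw [e2]; simp only [Complex.mul_re, Complex.mul_im]
      have p1 := mul_pos (sub_pos.2 hw1) (sub_pos.2 hw1')
      have p2 := mul_pos (sub_pos.2 hw2) (sub_pos.2 hw1')
      have p3 := mul_pos (sub_pos.2 hw2) (sub_pos.2 hw2')
      apply pos_of_mul_pos_left (b := √3) _ hs.le
      nlinarith) (by
      rw [e2]; simp only [Complex.mul_re, Complex.mul_im]; nlinarith) (by
      simp only; nlinarith)
    rw [hb]
    simp only [ip, Complex.add_re, Complex.add_im] at this ⊢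
    nlinarith [sq_nonneg a.re, sq_nonneg a.im]
  · have hb : (2 - 2 * om 3 : ℂ) = ⟨4, 0⟩ := by
      rw [e3]; apply Complex.ext <;> simp <;> ring
    rw [hb]
    simp only [Complex.add_re, Complex.add_im]
    rcases lt_or_ge a.re 0 with c | c
    · have := cone_neg hw h1 c
      nlinarith [sq_nonneg (a.re + 1)]
    · nlinarith [sq_nonneg a.im]

lemma cone_max {w : ℂ} (hw : Cone w) (j : Fin 6) : ip (2 * om j) w ≤ ip 2 w ∧ 0 ≤ ip 2 w := by
  have hw1 := hw.1
  have hw2 := hw.2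
  refine ⟨?_, by simp only [ip, Complex.re_ofNat, Complex.im_ofNat]; linarith⟩
  fin_cases j <;> simp [ip, om] <;> linarith

end Pool.Agent.Lib.MP_b07bdb_co
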