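import Pool.Agent.Lib.MP_b07bdb_co.Step

/-! The ring extension lemma. -/

namespace Pool.Agent.Lib.MP_b07bdb_co

open Filter Topology

/-- `v` is extreme in `S` in a direction within `30` degrees of the `s`-th root of unity. -/
def Valid (S : Finset ℂ) (v : ℂ) (s : Fin 6) : Prop :=
  v ∈ S ∧ ∃ w, Cone w ∧ ∀ x ∈ S, ip x (om s * w) ≤ ip v (om s * w)

lemma om_neg_mul (s : Fin 6) : om (-s) * om s = 1 := by
  rw [← om_add, neg_add_cancel]
  apply Complex.ext <;> simp [om]

lemma ip_rot (s : Fin 6) (a w : ℂ) : ip (om (-s) * a) w = ip a (om s * w) := by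
  rw [← ip_mul (om_norm (-s)) a (om s * w), ← mul_assoc, om_neg_mul, one_mul]

lemma norm_rot (s : Fin 6) (a : ℂ) : ‖om (-s) * a‖ = ‖a‖ := by
  rw [norm_mul, om_norm, one_mul]

lemma valid_old {S : Finset ℂ} (hs : ∀ x ∈ S, ∀ y ∈ S, x ≠ y → 2 ≤ dist x y) {v : ℂ} {s : Fin 6}
    (h : Valid S v s) {x : ℂ} (hx : x ∈ S) : 2 ≤ dist (v + 2 * om s) x := by
  obtain ⟨hv, w, hw, hm⟩ := h
  have h1 := claim1 (a := om (-s) * (v - x)) hw (by
    rw [ip_rot, ip_sub]; linarith [hm x hx]) (by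
    by_cases e : v = x
    · left; rw [e, sub_self, mul_zero]
    · right; rw [norm_rot, ← dist_eq_norm]; exact hs v hv x hx e)
  have e : om (-s) * (v - x) + 2 = om (-s) * (v + 2 * om s - x) := by
    linear_combination (-2) * om_neg_mul s
  rwa [e, norm_rot, ← dist_eq_norm] at h1

lemma valid_new0 {S : Finset ℂ} {v v' : ℂ} {s j : Fin 6} (hj : j = 1 ∨ j = 2 ∨ j = 3)
    (h : Valid S v s) (h' : Valid S v' (s + j)) :
    2 ≤ dist (v + 2 * om s) (v' + 2 * om (s + j)) := by
  obtain ⟨hv, w, hw, hm⟩ := h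
  obtain ⟨hv', w', hw', hm'⟩ := h'
  have h1 := claim2 (a := om (-s) * (v - v')) hw hw' j hj (by
    rw [ip_rot, ip_sub]; linarith [hm v' hv']) (by
    rw [ip_rot, ip_sub, ← mul_assoc, ← om_add]; linarith [hm' v hv])
  have e : om (-s) * (v - v') + (2 - 2 * om j) =
      om (-s) * (v + 2 * om s - (v' + 2 * om (s + j))) := by
    rw [om_add]
    linear_combination (-2 + 2 * om j) * om_neg_mul s
  rwa [e, norm_rot, ← dist_eq_norm] at h1

lemma valid_new {S : Finset ℂ} (hs : ∀ x ∈ S, ∀ y ∈ S, x ≠ y → 2 ≤ dist x y) {v v' : ℂ}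
    {s t : Fin 6} (h : Valid S v s) (h' : Valid S v' t) (hne : (v, s) ≠ (v', t)) :
    2 ≤ dist (v + 2 * om s) (v' + 2 * om t) := by
  have key : ∀ s t : Fin 6, t = s ∨ (∃ j : Fin 6, (j = 1 ∨ j = 2 ∨ j = 3) ∧ t = s + j) ∨
      ∃ j : Fin 6, (j = 1 ∨ j = 2 ∨ j = 3) ∧ s = t + j := by decide
  rcases key s t with rfl | ⟨j, hj, rfl⟩ | ⟨j, hj, rfl⟩
  · rw [dist_add_right]
    exact hs v h.1 v' h'.1 (fun e => hne (by rw [e]))
  · exact valid_new0 hj h h'
  · rw [dist_comm]
    exact valid_new0 hj h' h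

lemma strict_valid {S : Finset ℂ} {v : ℂ} (hv : v ∈ S) {s : Fin 6}
    (h : ∀ x ∈ S, x ≠ v → ip x (om s * nu) < ip v (om s * nu)) :
    Valid S v s ∧ Valid S v (s + 1) := by
  have h3 := sq3
  have hp := sq3_pos
  have key : ∀ y : ℂ, ∃ ε : ℝ, 0 < ε ∧ ε < 1 ∧
      ∀ x ∈ S, ip x (om s * (nu + ε * y)) ≤ ip v (om s * (nu + ε * y)) := by
    intro y
    have h1 : ∀ᶠ ε : ℝ in 𝓝 0, ∀ x ∈ S, ip x (om s * (nu + ε * y)) ≤ ip v (om s * (nu + ε * y)) := by
      rw [Filter.eventually_all_finset]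
      intro x hx
      by_cases e : x = v
      · exact Eventually.of_forall (fun _ => by rw [e])
      have c : ∀ z : ℂ, Continuous (fun ε : ℝ => ip z (om s * (nu + ε * y))) := by
        intro z
        unfold ip
        fun_prop
      have := (c x).continuousAt.eventually_lt (x₀ := 0) (c v).continuousAt (by simpa using h x hx e)
      exact this.mono (fun _ h => h.le)
    have h2 : ∀ᶠ ε : ℝ in 𝓝[>] 0, ε ∈ Set.Ioo (0 : ℝ) 1 := Ioo_mem_nhdsGT zero_lt_one
    obtain ⟨ε, h3, h4⟩ := ((h1.filter_mono nhdsWithin_le_nhds).and h2).exists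
    exact ⟨ε, h4.1, h4.2, h3⟩
  constructor
  · obtain ⟨ε, h1, h2, hm⟩ := key ⟨0, -1⟩
    refine ⟨hv, _, ?_, hm⟩
    constructor <;> simp [nu] <;> nlinarith
  · obtain ⟨ε, h1, h2, hm⟩ := key (om 1 * ⟨0, 1⟩)
    refine ⟨hv, ⟨√3, -1⟩ + ε * ⟨0, 1⟩, ?_, ?_⟩
    · constructor <;> simp <;> nlinarith
    · have e : om 1 * ⟨√3, -1⟩ = nu := by
        apply Complex.ext <;> simp [om, nu] <;> linarith
      have e' : om (s + 1) * (⟨√3, -1⟩ + ε * ⟨0, 1⟩) = om s * (nu + ε * (om 1 * ⟨0, 1⟩)) := by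
        rw [om_add, ← e]; ring
      rw [e']
      exact hm

lemma ring_generic {S : Finset ℂ} {k : ℕ} (h : Good S k) (h2 : 2 ≤ S.card)
    (hg : ∀ s : Fin 6, ∀ x ∈ S, ∀ y ∈ S, x ≠ y → ip x (om s * nu) ≠ ip y (om s * nu)) :
    ∃ T : Finset ℂ, Good T (k + 1) ∧ S.card + (Ext S).card + 6 ≤ T.card ∧
      (Ext S).card + 6 ≤ (Ext T).card := by
  classical
  have hne : S.Nonempty := ⟨0, h.1⟩
  choose V hV hVm using fun s : Fin 6 => Finset.exists_max_image S (fun x => ip x (om s * nu)) hne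
  have hstrict : ∀ s, ∀ x ∈ S, x ≠ V s → ip x (om s * nu) < ip (V s) (om s * nu) :=
    fun s x hx e => lt_of_le_of_ne (hVm s x hx) (hg s x hx _ (hV s) e)
  have hval : ∀ s, Valid S (V s) s ∧ Valid S (V s) (s + 1) :=
    fun s => strict_valid (hV s) (hstrict s)
  have hall : ∀ v, ¬ ∀ s, V s = v := by
    intro v hv
    obtain ⟨x, hx, hxv⟩ := Finset.exists_mem_ne (by omega : 1 < S.card) v
    have a0 := hstrict 0 x hx (by rwa [hv])
    have a3 := hstrict 3 x hx (by rwa [hv])
    rw [hv] at a0 a3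
    have e0 : om 0 = ⟨1, 0⟩ := rfl
    have e3 : om 3 = ⟨-1, 0⟩ := rfl
    rw [e0] at a0
    rw [e3] at a3
    simp only [ip, Complex.mul_re, Complex.mul_im] at a0 a3
    linarith
  have hσ : ∀ v ∈ Ext S, ∃ s, Valid S v s ∧ V (s - 1) ≠ v := by
    intro v hv
    simp only [Ext, Finset.mem_filter] at hv
    obtain ⟨hvS, u, hu, hm⟩ := hv
    have h0 : ∃ s, Valid S v s := by
      obtain ⟨s, ⟨w, hw, rfl⟩ | ⟨t, ht, rfl⟩⟩ := cover u hu
      · exact ⟨s, hvS, w, hw, hm⟩
      · refine ⟨s, ?_⟩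
        by_cases e : v = V s
        · rw [e]; exact (hval s).1
        · have a1 := hstrict s v hvS e
          have a2 := hm _ (hV s)
          simp only [ip, Complex.re_ofReal_mul, Complex.im_ofReal_mul] at a1 a2
          nlinarith
    by_contra hc
    push Not at hc
    obtain ⟨s0, hs0⟩ := h0
    have step : ∀ s, Valid S v s → Valid S v (s - 1) := fun s hs => by
      have := (hval (s - 1)).1
      rwa [hc s hs] at this
    have all : ∀ s, Valid S v s := by
      have c1 := step _ hs0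
      have c2 := step _ c1
      have c3 := step _ c2
      have c4 := step _ c3
      have c5 := step _ c4
      have key : ∀ s s0 : Fin 6, s = s0 ∨ s = s0 - 1 ∨ s = s0 - 1 - 1 ∨ s = s0 - 1 - 1 - 1 ∨
        s = s0 - 1 - 1 - 1 - 1 ∨ s = s0 - 1 - 1 - 1 - 1 - 1 := by decide
      intro s
      rcases key s s0 with e | e | e | e | e | e <;> rw [e] <;> assumption
    apply hall v
    intro s
    have := hc (s + 1) (all _)
    rwa [add_sub_cancel_right] at this
  choose! σ hσ1 hσ2 using hσ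
  set W : Finset (ℂ × Fin 6) := (Ext S).image (fun v => (v, σ v)) ∪
    Finset.univ.image (fun s => (V s, s + 1)) with hW
  have hWcard : W.card = (Ext S).card + 6 := by
    rw [hW, Finset.card_union_of_disjoint, Finset.card_image_of_injective,
      Finset.card_image_of_injective]
    · simp
    · intro s t e
      exact add_right_cancel (Prod.mk.inj e).2
    · intro s t e
      exact (Prod.mk.inj e).1
    · rw [Finset.disjoint_left]
      intro p hp hp'
      obtain ⟨v, hv, rfl⟩ := Finset.mem_image.1 hp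
      obtain ⟨s, -, e⟩ := Finset.mem_image.1 hp'
      obtain ⟨e1, e2⟩ := Prod.mk.inj e
      apply hσ2 v hv
      rw [← e2, add_sub_cancel_right, e1]
  have hWv : ∀ p ∈ W, Valid S p.1 p.2 := by
    intro p hp
    rcases Finset.mem_union.1 hp with hp | hp
    · obtain ⟨v, hv, rfl⟩ := Finset.mem_image.1 hp
      exact hσ1 v hv
    · obtain ⟨s, -, rfl⟩ := Finset.mem_image.1 hp
      exact (hval s).2
  set N : Finset ℂ := W.image (fun p => p.1 + 2 * om p.2) with hN
  have hNcard : N.card = (Ext S).card + 6 := by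
    rw [hN, Finset.card_image_of_injOn, hWcard]
    intro p hp q hq e
    by_contra hne
    have := valid_new h.2.1 (hWv p hp) (hWv q hq) hne
    simp only at e
    rw [e, dist_self] at this
    linarith
  have hdisj : Disjoint S N := by
    rw [Finset.disjoint_left]
    intro x hx hx'
    obtain ⟨p, hp, rfl⟩ := Finset.mem_image.1 hx'
    have := valid_old h.2.1 (hWv p hp) hx
    rw [dist_self] at this
    linarith
  refine ⟨S ∪ N, ⟨Finset.mem_union_left _ h.1, ?_, ?_⟩, ?_, ?_⟩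
  · intro x hx y hy hxy
    rcases Finset.mem_union.1 hx with hx | hx <;> rcases Finset.mem_union.1 hy with hy | hy
    · exact h.2.1 x hx y hy hxy
    · obtain ⟨p, hp, rfl⟩ := Finset.mem_image.1 hy
      rw [dist_comm]
      exact valid_old h.2.1 (hWv p hp) hx
    · obtain ⟨p, hp, rfl⟩ := Finset.mem_image.1 hx
      exact valid_old h.2.1 (hWv p hp) hy
    · obtain ⟨p, hp, rfl⟩ := Finset.mem_image.1 hx
      obtain ⟨q, hq, rfl⟩ := Finset.mem_image.1 hy
      exact valid_new h.2.1 (hWv p hp) (hWv q hq) (fun e => hxy (by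
        rw [(Prod.mk.inj e).1, (Prod.mk.inj e).2]))
  · intro x hx
    rcases Finset.mem_union.1 hx with hx | hx
    · exact Or.inl (Reach.mono Finset.subset_union_left k x (h.2.2 x hx))
    · obtain ⟨p, hp, rfl⟩ := Finset.mem_image.1 hx
      refine Or.inr ⟨p.1, Finset.mem_union_left _ (hWv p hp).1,
        Reach.mono Finset.subset_union_left k _ (h.2.2 _ (hWv p hp).1), ?_⟩
      rw [dist_eq_norm, add_sub_cancel_left, norm_mul, om_norm]
      simp
  · rw [Finset.card_union_of_disjoint hdisj, hNcard]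
    omega
  · rw [← hNcard]
    apply Finset.card_le_card
    intro x hx
    have hx' := hx
    obtain ⟨p, hp, rfl⟩ := Finset.mem_image.1 hx'
    obtain ⟨-, w, hw, hm⟩ := hWv p hp
    simp only [Ext, Finset.mem_filter]
    have hrot : ∀ t : Fin 6, ip (2 * om t) (om p.2 * w) = ip (2 * om (-p.2 + t)) w := by
      intro t
      rw [← ip_rot, om_add]
      congr 1
      ring
    have hself : ip (2 * om p.2) (om p.2 * w) = ip 2 w := by
      rw [hrot, neg_add_cancel]
      congr 1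
      apply Complex.ext <;> simp [om]
    refine ⟨Finset.mem_union_right _ hx, om p.2 * w, mul_ne_zero ?_ ?_, fun y hy => ?_⟩
    · rw [← norm_ne_zero_iff, om_norm]; exact one_ne_zero
    · rintro rfl
      have := hw.1
      simp at this
    · rw [ip_add, hself]
      rcases Finset.mem_union.1 hy with hy | hy
      · linarith [hm y hy, (cone_max hw 0).2]
      · obtain ⟨q, hq, rfl⟩ := Finset.mem_image.1 hy
        rw [ip_add, hrot]
        linarith [hm _ (hWv q hq).1, (cone_max hw (-p.2 + q.2)).1]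

lemma ring_step {S : Finset ℂ} {k : ℕ} (h : Good S k) (h2 : 2 ≤ S.card) :
    ∃ T : Finset ℂ, Good T (k + 1) ∧ S.card + (Ext S).card + 6 ≤ T.card ∧
      (Ext S).card + 6 ≤ (Ext T).card := by
  classical
  obtain ⟨z, hz, hF⟩ := exists_generic ((S.offDiag ×ˢ (Finset.univ : Finset (Fin 6))).image
    fun p => (p.1.1 - p.1.2) * (starRingEnd ℂ) (om p.2 * nu)) (by
      intro c hc
      obtain ⟨p, hp, rfl⟩ := Finset.mem_image.1 hc
      have h1 := (Finset.mem_offDiag.1 (Finset.mem_product.1 hp).1).2.2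
      refine mul_ne_zero (sub_ne_zero.2 h1) ?_
      rw [map_ne_zero]
      refine mul_ne_zero ?_ (fun e => by simpa [nu] using congrArg Complex.im e)
      rw [← norm_ne_zero_iff, om_norm]; exact one_ne_zero)
  obtain ⟨g1, g2, g3⟩ := good_mul h hz
  obtain ⟨T, t1, t2, t3⟩ := ring_generic g1 (by rwa [g2]) (by
    intro s x hx y hy hxy e
    obtain ⟨x, hx', rfl⟩ := Finset.mem_image.1 hx
    obtain ⟨y, hy', rfl⟩ := Finset.mem_image.1 hy
    apply hF _ (Finset.mem_image.2 ⟨((x, y), s), Finset.mem_product.2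
      ⟨Finset.mem_offDiag.2 ⟨hx', hy', fun e => hxy (by simp only at e; rw [e])⟩,
        Finset.mem_univ _⟩, rfl⟩)
    simp only [ip, Complex.mul_re, Complex.mul_im, Complex.sub_re, Complex.sub_im, Complex.conj_re,
      Complex.conj_im] at e ⊢
    linarith)
  exact ⟨T, t1, by omega, by omega⟩

end Pool.Agent.Lib.MP_b07bdb_co
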